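import Pool.Agent.Helper227.RD.RMach

set_option autoImplicit false

namespace Pool.Agent.Helper227

open Encodable MeasureTheory
open scoped ENNReal
open Nat.Partrec (Code)

/-- The effective (constructive Hausdorff) dimension of `X` computed with the complexity
function of the machine `U`; when `U` is a universal prefix-free machine relative to `A`, this is
`dim^A(X) = liminf K^A(X ↾ n) / n`. -/
noncomputable def dimU (U : List Bool →. List Bool) (X : ℕ → Bool) : ℝ≥0∞ :=
  Filter.liminf (fun n : ℕ => (KU U ((List.range n).map X) : ℝ≥0∞) / n) Filter.atTop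

theorem SI.to_recIn {A : ℕ → Bool} {f : List Bool →. List Bool}
    (h : SI A fun x : List Bool × List Bool => x.2 ∈ f x.1) : RecursiveIn {chi A} f :=
  SI.iff_recIn.2 h

theorem IsUniversalIn.exists_program {A : ℕ → Bool} {U : List Bool →. List Bool}
    (hU : IsUniversalIn A U) (y : List Bool) : ∃ τ : List Bool, y ∈ U τ := by
  let M : List Bool →. List Bool := partOf fun τ z => τ = [] ∧ z = y
  have hmem : ∀ τ z, z ∈ M τ ↔ τ = [] ∧ z = y := fun τ z =>
    mem_partOf (by rintro b b' ⟨_, rfl⟩ ⟨_, rfl⟩; rfl)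
  have hM : IsMachineIn A M := by
    refine ⟨?_, ?_⟩
    · refine SI.iff_recIn.2 (SI.of_eq (SI.of_prim (p := fun x : List Bool × List Bool =>
        x.1 = [] ∧ x.2 = y) (PrimrecPred.and ?_ ?_)) fun x => (hmem _ _).symm)
      · exact Primrec.eq.comp Primrec.fst (Primrec.const _)
      · exact Primrec.eq.comp Primrec.snd (Primrec.const _)
    · intro σ τ hσ hτ _
      obtain ⟨z, hz⟩ := Part.dom_iff_mem.1 hσ
      obtain ⟨z', hz'⟩ := Part.dom_iff_mem.1 hτ
      rw [((hmem _ _).1 hz).1, ((hmem _ _).1 hz').1]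
  obtain ⟨c, hc⟩ := hU.2 M hM
  obtain ⟨τ', _, h⟩ := hc [] y ((hmem _ _).2 ⟨rfl, rfl⟩)
  exact ⟨τ', h⟩

theorem IsUniversalIn.exists_min {A : ℕ → Bool} {U : List Bool →. List Bool}
    (hU : IsUniversalIn A U) (y : List Bool) : ∃ τ : List Bool, τ.length = KU U y ∧ y ∈ U τ := by
  have hne : {n | ∃ τ : List Bool, τ.length = n ∧ y ∈ U τ}.Nonempty := by
    obtain ⟨τ, hτ⟩ := hU.exists_program y
    exact ⟨τ.length, τ, rfl, hτ⟩
  exact Nat.sInf_mem hne

theorem tsum_kraft {P : List Bool → Prop} (hP : ∀ σ τ, P σ → P τ → σ <+: τ → σ = τ) :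
    ∑' σ : {σ // P σ}, (1 / 2 : ℝ≥0∞) ^ σ.1.length ≤ 1 := by
  rw [ENNReal.tsum_eq_iSup_sum]
  refine iSup_le fun F => ?_
  have := kraft hP (F.map ⟨Subtype.val, Subtype.val_injective⟩) (by
    intro σ hσ
    simp only [Finset.mem_map, Function.Embedding.coeFn_mk] at hσ
    obtain ⟨a, _, rfl⟩ := hσ
    exact a.2)
  rwa [Finset.sum_map] at this

/-- compactness: a prefix closed tree with arbitrarily long strings extending `σ` has a path
through `σ`. -/
theorem exists_path {Bad : List Bool → Prop} (hmono : ∀ σ τ, σ <+: τ → Bad σ → Bad τ)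
    {σ : List Bool} (h : ∀ m, ∃ ρ : List Bool, ρ.length = m ∧ (∃ t, ρ ++ t = σ ∨ σ ++ t = ρ) ∧ ¬ Bad ρ) :
    ∃ X ∈ cyl σ, ∀ n, ¬ Bad (pre X n) := by
  classical
  let C : ℕ → Set (ℕ → Bool) := fun m => {X | X ∈ cyl σ ∧ ¬ Bad (pre X (σ.length + m))}
  have hcont : ∀ n, ∀ P : List Bool → Prop, IsClosed {X : ℕ → Bool | P (pre X n)} := by
    intro n P
    have h1 : Continuous fun X : ℕ → Bool => fun i : Fin n => X i :=
      continuous_pi fun i => continuous_apply _
    have h2 : {X : ℕ → Bool | P (pre X n)} = (fun X : ℕ → Bool => fun i : Fin n => X i) ⁻¹'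
        {f : Fin n → Bool | P (List.ofFn f)} := by
      ext X
      have : pre X n = List.ofFn fun i : Fin n => X i := by
        refine List.ext_getElem (by simp) fun i h1 h2 => ?_
        rw [getElem_pre]
        simp
      simp only [Set.mem_ofPred_eq, Set.mem_preimage, this]
    rw [h2]
    exact (isClosed_discrete _).preimage h1
  have hC : ∀ m, IsClosed (C m) := by
    intro m
    have h1 : C m = {X | pre X σ.length = σ} ∩ {X | ¬ Bad (pre X (σ.length + m))} := by
      ext X
      simp only [C, Set.mem_ofPred_eq, Set.mem_inter_iff, mem_cyl_iff]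
    rw [h1]
    exact (hcont σ.length fun ρ => ρ = σ).inter (hcont _ fun ρ => ¬ Bad ρ)
  have hne : ∀ m, (C m).Nonempty := by
    intro m
    obtain ⟨ρ, h1, ⟨t, h2⟩, h3⟩ := h (σ.length + m)
    have h4 : σ <+: ρ := by
      rcases h2 with h2 | h2
      · have h5 := congrArg List.length h2
        rw [List.length_append, h1] at h5
        have ht : t = [] := List.length_eq_zero_iff.1 (by omega)
        rw [ht, List.append_nil] at h2
        rw [h2]
      · exact ⟨t, h2⟩
    let X : ℕ → Bool := fun i => ρ.getD i false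
    have hX : pre X ρ.length = ρ := by
      refine List.ext_getElem (by simp) fun i h1 h2 => ?_
      rw [getElem_pre]
      simp [X, h2]
    refine ⟨X, ?_, ?_⟩
    · rw [mem_cyl_iff]
      have h5 := take_pre X ρ.length σ.length h4.length_le
      rw [hX] at h5
      rw [← h5]
      exact (List.prefix_iff_eq_take.1 h4).symm
    · rw [← h1, hX]
      exact h3
  obtain ⟨X, hX⟩ := IsCompact.nonempty_iInter_of_sequence_nonempty_isCompact_isClosed C
    (fun m X hX => ⟨hX.1, fun hb => hX.2 (hmono _ _ (pre_prefix X (by omega)) hb)⟩) hne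
    (hC 0).isCompact hC
  rw [Set.mem_iInter] at hX
  refine ⟨X, (hX 0).1, fun n hb => (hX n).2 (hmono _ _ (pre_prefix X (by omega)) hb)⟩

end Pool.Agent.Helper227
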