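import Pool.Agent.Helper227.RD.SI

set_option autoImplicit false

namespace Pool.Agent.Helper227

open Encodable
open Nat.Partrec (Code)

/-- The `e`-th set that is computably enumerable relative to `A`: all `n` such that for some `k`
the `e`-th program halts on the input consisting of `(A 0, ..., A (k-1))` and `n`. -/
def WE (A : ℕ → Bool) (e : ℕ) : Set ℕ :=
  {n | ∃ k : ℕ, ((Denumerable.ofNat Code e).eval
    (encode ((List.range k).map A, n))).Dom}

open Classical in
/-- The Turing jump of `A`: all `e` that belong to the `e`-th set computably enumerable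
relative to `A`. -/
noncomputable def jump (A : ℕ → Bool) : ℕ → Bool := fun e => decide (e ∈ WE A e)

theorem jump_eq_true {A : ℕ → Bool} {e : ℕ} : jump A e = true ↔ e ∈ WE A e := by
  simp [jump]

theorem s1_eval : S1 fun x : Code × ℕ => (x.1.eval x.2).Dom := by
  have h : Partrec fun x : Code × ℕ => x.1.eval x.2 := Nat.Partrec.Code.eval_part
  exact S1.of_re h.dom_re

theorem si_WE (A : ℕ → Bool) : SI A fun x : ℕ × ℕ => x.2 ∈ WE A x.1 := by
  have h1 : SI A fun x : ℕ × ℕ => ∃ σ : List Bool, (∀ i < σ.length, A i = σ.getD i false) ∧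
      ((Denumerable.ofNat Code x.1).eval (encode (σ, x.2))).Dom := by
    refine SI.ex (p := fun (x : ℕ × ℕ) (σ : List Bool) =>
      (∀ i < σ.length, A i = σ.getD i false) ∧
      ((Denumerable.ofNat Code x.1).eval (encode (σ, x.2))).Dom) (SI.and ?_ (SI.of_s1 ?_))
    · refine SI.all_lt (α := (ℕ × ℕ) × List Bool) (p := fun x i => A i = x.2.getD i false)
        (f := fun x => x.2.length) ?_ (Primrec.list_length.comp Primrec.snd)
      exact SI.query.comp (f := fun z : ((ℕ × ℕ) × List Bool) × ℕ => (z.2, z.1.2.getD z.2 false))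
        (Primrec.snd.pair ((Primrec.list_getD false).comp (Primrec.snd.comp Primrec.fst) Primrec.snd))
    · exact S1.comp (f := fun x : (ℕ × ℕ) × List Bool =>
        (Denumerable.ofNat Code x.1.1, encode (x.2, x.1.2))) s1_eval
        (((Primrec.ofNat Code).comp (Primrec.fst.comp Primrec.fst)).pair
          (Primrec.encode.comp (Primrec.snd.pair (Primrec.snd.comp Primrec.fst))))
  refine h1.of_eq fun x => ?_
  constructor
  · rintro ⟨σ, h3, h4⟩
    refine ⟨σ.length, ?_⟩
    have : (List.range σ.length).map A = σ := by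
      refine List.ext_getElem (by simp) fun i h5 h6 => ?_
      simp only [List.getElem_map, List.getElem_range]
      rw [h3 i h6]
      simp [h6]
    rwa [this]
  · rintro ⟨s, hs⟩
    exact ⟨pre A s, fun i hi => (pre_getD A _ _ _ (by simpa using hi)).symm, hs⟩

/-- The sets `WE A e` are exactly the sets c.e. relative to `A`. -/
theorem ceIn_iff_exists_WE {A : ℕ → Bool} {W : Set ℕ} : CEIn A W ↔ ∃ e, W = WE A e := by
  constructor
  · intro h
    obtain ⟨E, hE, mE, eE⟩ := ceIn_iff.1 h
    obtain ⟨c, hc⟩ := Nat.Partrec.Code.exists_code.1 hE.re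
    refine ⟨encode c, ?_⟩
    ext n
    rw [eE]
    simp only [WE, Set.mem_ofPred_eq, Denumerable.ofNat_encode]
    refine exists_congr fun k => ?_
    rw [hc]
    simp [Part.assert, pre]
  · rintro ⟨e, rfl⟩
    rw [SI.iff_ceIn]
    exact (si_WE A).comp (f := fun n : ℕ => (e, n)) ((Primrec.const e).pair Primrec.id)

/-- The jump of `A` is c.e. relative to `A`. -/
theorem si_jump (A : ℕ → Bool) : SI A fun e : ℕ => jump A e = true :=
  ((si_WE A).comp (f := fun e : ℕ => (e, e)) (Primrec.id.pair Primrec.id)).of_eq
    fun _ => jump_eq_true.symm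

/-- Completeness of the jump. -/
theorem SI.to_jump {A : ℕ → Bool} {α : Type*} [Primcodable α] {p : α → Prop} (hp : SI A p) :
    ∃ f : α → ℕ, Computable f ∧ ∀ a, p a ↔ jump A (f a) = true := by
  obtain ⟨E, hE, mE, eE⟩ := hp
  -- the predicate on `pair (encode a) (encode (σ, n))`
  have h1 : S1 fun m : ℕ => ∃ a : α, ∃ σ : List Bool, ∃ n : ℕ,
      m = Nat.pair (encode a) (encode (σ, n)) ∧ E (σ, a) := by
    refine S1.ex (S1.ex (S1.ex (S1.and (S1.of_prim ?_) (hE.comp ?_))))
    · refine Primrec.eq.comp (Primrec.fst.comp (Primrec.fst.comp Primrec.fst)) ?_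
      refine Primrec₂.natPair.comp (Primrec.encode.comp
        (Primrec.snd.comp (Primrec.fst.comp Primrec.fst))) (Primrec.encode.comp ?_)
      exact (Primrec.snd.comp Primrec.fst).pair Primrec.snd
    · exact (Primrec.snd.comp Primrec.fst).pair (Primrec.snd.comp (Primrec.fst.comp Primrec.fst))
  obtain ⟨c, hc⟩ := Nat.Partrec.Code.exists_code.1 h1.re
  refine ⟨fun a => encode (Code.curry c (encode a)), ?_, fun a => ?_⟩
  · have h2 : Primrec fun a : α => Code.curry c (encode a) :=
      Nat.Partrec.Code.primrec₂_curry.comp (Primrec.const c) Primrec.encode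
    exact (Primrec.encode.comp h2).to_comp
  · rw [jump_eq_true]
    simp only [WE, Set.mem_ofPred_eq, Denumerable.ofNat_encode, Nat.Partrec.Code.eval_curry]
    rw [eE, hc]
    refine exists_congr fun k => ?_
    simp [Part.assert, pre]

/-- A decision relative to the jump. -/
theorem SI.decide_jump {A : ℕ → Bool} {α : Type*} [Primcodable α] {p : α → Prop} (hp : SI A p) :
    SI (jump A) p ∧ SI (jump A) fun a => ¬ p a := by
  obtain ⟨f, hf, h⟩ := hp.to_jump
  constructor
  · refine (SI.comp_computable (f := fun a => (f a, true)) (SI.query (B := jump A))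
      (hf.pair (Computable.const true))).of_eq fun a => (h a).symm
  · refine (SI.comp_computable (f := fun a => (f a, false)) (SI.query (B := jump A))
      (hf.pair (Computable.const false))).of_eq fun a => ?_
    rw [h a]
    simp

theorem tLe_jump (A : ℕ → Bool) : TLe A (jump A) := by
  rw [tLe_iff_SI]
  exact (SI.query (B := A)).decide_jump.1

theorem TLe.jump {A B : ℕ → Bool} (h : TLe A B) : TLe (jump A) (jump B) := by
  rw [tLe_iff_SI]
  have h1 : SI B fun e : ℕ => Pool.Agent.Helper227.jump A e = true := (si_jump A).trans h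
  obtain ⟨h2, h3⟩ := h1.decide_jump
  have h4 : SI (Pool.Agent.Helper227.jump B) fun x : ℕ × Bool =>
      (Pool.Agent.Helper227.jump A x.1 = true ∧ x.2 = true) ∨
      (¬ Pool.Agent.Helper227.jump A x.1 = true ∧ x.2 = false) := by
    refine SI.or (SI.and (h2.comp Primrec.fst) (SI.of_prim ?_))
      (SI.and (h3.comp (f := fun x : ℕ × Bool => x.1) Primrec.fst) (SI.of_prim ?_))
    · exact Primrec.eq.comp Primrec.snd (Primrec.const true)
    · exact Primrec.eq.comp Primrec.snd (Primrec.const false)
  refine h4.of_eq fun x => ?_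
  rcases x with ⟨n, b⟩
  cases b <;> simp

end Pool.Agent.Helper227
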