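import Pool.Agent.Helper227.RD.Dim

set_option autoImplicit false

namespace Pool.Agent.Helper227

open Encodable MeasureTheory
open scoped ENNReal
open Nat.Partrec (Code)

namespace Neg

section

variable (V : List Bool →. List Bool)

/-- some initial segment of `σ` has a description shorter than itself -/
def Bad (σ : List Bool) : Prop :=
  ∃ k < σ.length + 1, ∃ τ : List Bool, τ.length < k ∧ σ.take k ∈ V τ

/-- `σ` can be extended to a sequence without compressible initial segments -/
def Ext (σ : List Bool) : Prop := ∃ X ∈ cyl σ, ∀ n, ¬ Bad V (pre X n)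

variable {V}

theorem bad_mono : ∀ σ τ, σ <+: τ → Bad V σ → Bad V τ := by
  rintro σ τ h ⟨k, hk, ρ, h1, h2⟩
  have hl := h.length_le
  refine ⟨k, by omega, ρ, h1, ?_⟩
  have hk2 : σ.take k = τ.take k := by
    rw [List.prefix_iff_eq_take] at h
    rw [h, List.take_take, min_eq_left (by omega)]
  rwa [← hk2]

theorem not_bad_pre {X : ℕ → Bool} {n : ℕ} (h : ¬ Bad V (pre X n)) {τ : List Bool}
    (hτ : pre X n ∈ V τ) : n ≤ τ.length := by
  by_contra hc
  exact h ⟨n, by simp, τ, by omega, by rwa [take_pre X _ _ le_rfl]⟩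

/-- there is a sequence without compressible initial segments -/
theorem exists_good (hpf : ∀ σ τ : List Bool, (V σ).Dom → (V τ).Dom → σ <+: τ → σ = τ) :
    ∃ X, ∀ n, ¬ Bad V (pre X n) := by
  classical
  by_contra hc
  push Not at hc
  -- the cylinders given by compressible strings cover everything
  have hcov : (Set.univ : Set (ℕ → Bool)) ⊆ ⋃ τ : {τ // (V τ).Dom},
      (if τ.1.length < ((V τ.1).get τ.2).length then cyl ((V τ.1).get τ.2) else ∅) := by
    intro X _
    obtain ⟨n, k, hk, τ, h1, h2⟩ := hc X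
    rw [length_pre] at hk
    rw [take_pre X _ _ (by omega)] at h2
    have hdom : (V τ).Dom := Part.dom_iff_mem.2 ⟨_, h2⟩
    have hget : (V τ).get hdom = pre X k := Part.get_eq_of_mem h2 _
    rw [Set.mem_iUnion]
    refine ⟨⟨τ, hdom⟩, ?_⟩
    simp only [hget, length_pre]
    rw [if_pos h1]
    exact mem_cyl_pre _ _
  have h1 := measure_mono (μ := lam) hcov
  rw [measure_univ] at h1
  have h2 := (h1.trans (measure_iUnion_le _)).trans (ENNReal.tsum_le_tsum
    (g := fun τ : {τ // (V τ).Dom} => (1 / 2 : ℝ≥0∞) * (1 / 2) ^ τ.1.length) ?_)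
  · rw [ENNReal.tsum_mul_left] at h2
    have h3 := tsum_kraft (P := fun τ => (V τ).Dom) hpf
    have h4 : (1 / 2 : ℝ≥0∞) * ∑' τ : {τ // (V τ).Dom}, (1 / 2 : ℝ≥0∞) ^ τ.1.length ≤ 1 / 2 := by
      calc _ ≤ (1 / 2 : ℝ≥0∞) * 1 := by gcongr
        _ = 1 / 2 := mul_one _
    have h5 := h2.trans h4
    exact absurd h5 (not_le.2 (by simpa using ENNReal.one_half_lt_one))
  · intro τ
    split_ifs with h
    · rw [lam_cyl, ← pow_succ']
      exact pow_le_pow_of_le_one (by simp) (by simp) h
    · simp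

theorem ext_iff {σ : List Bool} : Ext V σ ↔
    ∀ m : ℕ, ∃ ρ ∈ allStr m, ¬ Bad V (σ ++ ρ) := by
  constructor
  · rintro ⟨X, hX, h⟩ m
    have h1 : σ <+: pre X (σ.length + m) := by
      have h2 := take_pre X (σ.length + m) σ.length (by omega)
      rw [mem_cyl_iff.1 hX] at h2
      exact List.prefix_iff_eq_take.2 h2.symm
    obtain ⟨ρ, hρ⟩ := h1
    refine ⟨ρ, ?_, by rw [hρ]; exact h _⟩
    rw [mem_allStr]
    have := congrArg List.length hρ
    simp at this
    omega
  · intro h
    refine exists_path bad_mono fun m => ?_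
    obtain ⟨ρ, h1, h2⟩ := h m
    rw [mem_allStr] at h1
    refine ⟨(σ ++ ρ).take m, ?_, ?_, fun hb => h2 (bad_mono _ _ (List.take_prefix _ _) hb)⟩
    · rw [List.length_take, List.length_append]
      omega
    · rw [List.take_append]
      rcases Nat.le_total m σ.length with h3 | h3
      · refine ⟨σ.drop m, Or.inl ?_⟩
        rw [show m - σ.length = 0 by omega]
        simp
      · refine ⟨ρ.take (m - σ.length), Or.inr ?_⟩
        rw [List.take_of_length_le h3]

/-- relative effectivity of `Bad` -/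
theorem si_bad {O : ℕ → Bool} (hV : RecursiveIn {chi O} V) : SI O (Bad V) := by
  have h1 := SI.iff_recIn.1 hV
  have h2 : SI O fun σ : List Bool => ∃ k : ℕ, ∃ τ : List Bool,
      (k < σ.length + 1 ∧ τ.length < k) ∧ σ.take k ∈ V τ := by
    refine SI.ex (SI.ex (SI.and (SI.of_prim (PrimrecPred.and ?_ ?_)) ?_))
    · exact Primrec.nat_lt.comp (Primrec.snd.comp Primrec.fst)
        (Primrec.succ.comp (Primrec.list_length.comp (Primrec.fst.comp Primrec.fst)))
    · exact Primrec.nat_lt.comp (Primrec.list_length.comp Primrec.snd) (Primrec.snd.comp Primrec.fst)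
    · exact h1.comp (f := fun z : (List Bool × ℕ) × List Bool => (z.2, z.1.1.take z.1.2))
        (Primrec.snd.pair (Primrec.list_take.comp (Primrec.snd.comp Primrec.fst)
          (Primrec.fst.comp Primrec.fst)))
  refine h2.of_eq fun σ => ?_
  constructor
  · rintro ⟨k, τ, ⟨h3, h4⟩, h5⟩
    exact ⟨k, h3, τ, h4, h5⟩
  · rintro ⟨k, h3, τ, h4, h5⟩
    exact ⟨k, τ, ⟨h3, h4⟩, h5⟩

theorem si_not_ext {O : ℕ → Bool} (hV : RecursiveIn {chi O} V) : SI O fun σ => ¬ Ext V σ := by
  have h1 := si_bad hV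
  have h2 : SI O fun σ : List Bool => ∃ m : ℕ, ∀ ρ ∈ allStr m, Bad V (σ ++ ρ) := by
    refine SI.ex (SI.all_mem (α := List Bool × ℕ) (f := fun x => allStr x.2)
      (p := fun x ρ => Bad V (x.1 ++ ρ)) ?_ (primrec_allStr.comp Primrec.snd))
    exact h1.comp (f := fun z : (List Bool × ℕ) × List Bool => z.1.1 ++ z.2)
      (Primrec.list_append.comp (Primrec.fst.comp Primrec.fst) Primrec.snd)
  refine h2.of_eq fun σ => ?_
  rw [ext_iff]
  push Not
  rfl

end

end Neg

end Pool.Agent.Helper227
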