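import Pool.Agent.Helper227.RD.Neg

set_option autoImplicit false

namespace Pool.Agent.Helper227

open Encodable MeasureTheory
open scoped ENNReal
open Nat.Partrec (Code)

namespace Neg

section path

variable (V : List Bool →. List Bool)

open Classical in
/-- initial segments of the rightmost path -/
noncomputable def PX : ℕ → List Bool
  | 0 => []
  | n + 1 => PX n ++ [decide (Ext V (PX n ++ [true]))]

open Classical in
/-- the rightmost path -/
noncomputable def YY (n : ℕ) : Bool := decide (Ext V (PX V n ++ [true]))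

theorem pre_YY (n : ℕ) : pre (YY V) n = PX V n := by
  induction n with
  | zero => simp [pre, PX]
  | succ n ih => rw [pre_succ, ih]; rfl

variable {V}

theorem YY_true {n : ℕ} : YY V n = true ↔ Ext V (pre (YY V) n ++ [true]) := by
  rw [pre_YY]; simp [YY]

theorem ext_split {σ : List Bool} (h : Ext V σ) : Ext V (σ ++ [true]) ∨ Ext V (σ ++ [false]) := by
  obtain ⟨X, hX, h⟩ := h
  have h1 : X ∈ cyl (σ ++ [X σ.length]) := by
    rw [mem_cyl_iff] at hX ⊢
    simp only [List.length_append, List.length_singleton]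
    rw [pre_succ, hX]
  cases hb : X σ.length
  · rw [hb] at h1; exact Or.inr ⟨X, h1, h⟩
  · rw [hb] at h1; exact Or.inl ⟨X, h1, h⟩

theorem ext_pre (h : Ext V []) (n : ℕ) : Ext V (pre (YY V) n) := by
  induction n with
  | zero => simpa [pre] using h
  | succ n ih =>
    rw [pre_succ]
    cases hb : YY V n
    · have h1 : ¬ Ext V (pre (YY V) n ++ [true]) := by rw [← YY_true, hb]; simp
      exact (ext_split ih).resolve_left h1
    · exact YY_true.1 hb

theorem not_bad_YY (h : Ext V []) (n : ℕ) : ¬ Bad V (pre (YY V) n) := by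
  obtain ⟨X, hX, h2⟩ := ext_pre h n
  have := h2 n
  rw [mem_cyl_iff, length_pre] at hX
  rwa [hX] at this

end path

section value

/-- numerator of the value of a string in base 4, with digits 1 and 2 -/
def num (σ : List Bool) : ℕ := σ.foldl (fun a b => 4 * a + 1 + b.toNat) 0

theorem num_append (σ : List Bool) (b : Bool) : num (σ ++ [b]) = 4 * num σ + 1 + b.toNat := by
  simp [num]

theorem primrec_num : Primrec num := by
  unfold num
  refine Primrec.list_foldl (h := fun (_ : List Bool) (x : ℕ × Bool) => 4 * x.1 + 1 + x.2.toNat)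
    Primrec.id (Primrec.const 0) ?_
  exact Primrec.nat_add.comp (Primrec.nat_add.comp (Primrec.nat_mul.comp (Primrec.const 4)
    (Primrec.fst.comp Primrec.snd)) (Primrec.const 1))
    ((Primrec.dom_bool Bool.toNat).comp (Primrec.snd.comp Primrec.snd))

/-- value of a string -/
noncomputable def val (σ : List Bool) : ℝ := num σ / 4 ^ σ.length

theorem val_append (σ : List Bool) (b : Bool) :
    val (σ ++ [b]) = val σ + (1 + b.toNat) / 4 ^ (σ.length + 1) := by
  simp only [val, num_append, List.length_append, List.length_singleton]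
  push_cast
  field_simp
  ring

variable (Y : ℕ → Bool)

/-- the real number coded by `Y` -/
noncomputable def rv : ℝ := ∑' i : ℕ, (1 + ((Y i).toNat : ℝ)) / 4 ^ (i + 1)

theorem val_pre (n : ℕ) : val (pre Y n) = ∑ i ∈ Finset.range n, (1 + ((Y i).toNat : ℝ)) / 4 ^ (i + 1) := by
  induction n with
  | zero => simp [pre, val, num]
  | succ n ih => rw [pre_succ, val_append, ih, Finset.sum_range_succ, length_pre]

theorem hasSum_geo (c : ℝ) (n : ℕ) : HasSum (fun i : ℕ => c / 4 ^ (i + n + 1)) (c / 3 / 4 ^ n) := by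
  have h := (hasSum_geometric_of_lt_one (r := (1 / 4 : ℝ)) (by norm_num) (by norm_num)).mul_left
    (c / 4 ^ (n + 1))
  have e1 : c / 4 ^ (n + 1) * (1 - 1 / 4)⁻¹ = c / 3 / 4 ^ n := by
    field_simp
    ring
  rw [e1] at h
  have e2 : (fun i : ℕ => c / 4 ^ (n + 1) * (1 / 4) ^ i) = fun i : ℕ => c / 4 ^ (i + n + 1) := by
    funext i
    rw [div_pow, one_pow, div_mul_div_comm, mul_one, ← pow_add]
    congr 2
    omega
  rwa [e2] at h

theorem summable_rv : Summable fun i : ℕ => (1 + ((Y i).toNat : ℝ)) / 4 ^ (i + 1) := by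
  refine Summable.of_nonneg_of_le (fun i => by positivity) (fun i => ?_) (hasSum_geo 2 0).summable
  have : ((Y i).toNat : ℝ) ≤ 1 := by exact_mod_cast Bool.toNat_le (Y i)
  simp only [add_zero]
  gcongr
  linarith

theorem rv_eq (n : ℕ) : rv Y = val (pre Y n) + ∑' i : ℕ, (1 + ((Y (i + n)).toNat : ℝ)) / 4 ^ (i + n + 1) := by
  rw [val_pre]
  exact ((summable_rv Y).sum_add_tsum_nat_add n).symm

theorem rv_lower (n : ℕ) : val (pre Y n) + 1 / 3 / 4 ^ n ≤ rv Y := by
  rw [rv_eq Y n]
  gcongr
  rw [← (hasSum_geo 1 n).tsum_eq]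
  refine (hasSum_geo 1 n).summable.tsum_le_tsum (fun i => ?_)
    ((summable_nat_add_iff n).2 (summable_rv Y))
  gcongr
  simp

theorem rv_upper (n : ℕ) : rv Y ≤ val (pre Y n) + 2 / 3 / 4 ^ n := by
  rw [rv_eq Y n]
  gcongr
  rw [← (hasSum_geo 2 n).tsum_eq]
  refine ((summable_nat_add_iff n).2 (summable_rv Y)).tsum_le_tsum (fun i => ?_)
    (hasSum_geo 2 n).summable
  have : ((Y (i + n)).toNat : ℝ) ≤ 1 := by exact_mod_cast Bool.toNat_le (Y (i + n))
  gcongr
  linarith

theorem rv_pos : 0 < rv Y := by
  have := rv_lower Y 0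
  simp [pre, val, num] at this
  linarith

theorem rv_lt_one : rv Y < 1 := by
  have := rv_upper Y 0
  simp [pre, val, num] at this
  linarith

end value

end Neg

end Pool.Agent.Helper227
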