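import Pool.Agent.Helper227.RD.Neg2

set_option autoImplicit false

namespace Pool.Agent.Helper227

open Encodable MeasureTheory
open scoped ENNReal
open Nat.Partrec (Code)

namespace Neg

section lower

variable (U : List Bool →. List Bool) (X : ℕ → Bool)

/-- some description beyond `m` violates the lower bound given by the value of `σ` -/
def Viol (n : ℕ) (σ : List Bool) : Prop :=
  ∃ m τ, (n ≤ m ∧ τ.length * 4 ^ σ.length ≤ num σ * m) ∧ pre X m ∈ U τ

/-- the value of `σ` is eventually a lower bound for the complexity quotients -/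
def LC (σ : List Bool) : Prop := ∃ n, ¬ Viol U X n σ

variable {U X}

theorem si_viol {O : ℕ → Bool} (hU : RecursiveIn {chi O} U) (hO : TLe O X) :
    SI X fun x : ℕ × List Bool => Viol U X x.1 x.2 := by
  have h1 := (SI.iff_recIn.1 hU).trans hO
  have h2 : SI X fun x : ℕ × List Bool => ∃ ρ τ : List Bool,
      (x.1 ≤ ρ.length ∧ τ.length * 4 ^ x.2.length ≤ num x.2 * ρ.length) ∧
      ((∀ i < ρ.length, X i = ρ.getD i false) ∧ ρ ∈ U τ) := by
    refine SI.ex (SI.ex (SI.and (SI.of_prim (PrimrecPred.and ?_ ?_)) (SI.and ?_ ?_)))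
    · exact Primrec.nat_le.comp (Primrec.fst.comp (Primrec.fst.comp Primrec.fst))
        (Primrec.list_length.comp (Primrec.snd.comp Primrec.fst))
    · refine Primrec.nat_le.comp ?_ ?_
      · exact Primrec.nat_mul.comp (Primrec.list_length.comp Primrec.snd)
          (primrec_pow.comp (Primrec.const 4) (Primrec.list_length.comp
            (Primrec.snd.comp (Primrec.fst.comp Primrec.fst))))
      · exact Primrec.nat_mul.comp (primrec_num.comp (Primrec.snd.comp (Primrec.fst.comp Primrec.fst)))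
          (Primrec.list_length.comp (Primrec.snd.comp Primrec.fst))
    · refine SI.all_lt (α := ((ℕ × List Bool) × List Bool) × List Bool)
        (p := fun x i => X i = x.1.2.getD i false) (f := fun x => x.1.2.length) ?_
        (Primrec.list_length.comp (Primrec.snd.comp Primrec.fst))
      exact SI.query.comp (f := fun z : (((ℕ × List Bool) × List Bool) × List Bool) × ℕ =>
        (z.2, z.1.1.2.getD z.2 false)) (Primrec.snd.pair ((Primrec.list_getD false).comp
          (Primrec.snd.comp (Primrec.fst.comp Primrec.fst)) Primrec.snd))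
    · exact h1.comp (f := fun z : ((ℕ × List Bool) × List Bool) × List Bool => (z.2, z.1.2))
        (Primrec.snd.pair (Primrec.snd.comp Primrec.fst))
  refine h2.of_eq fun x => ?_
  constructor
  · rintro ⟨ρ, τ, ⟨h3, h4⟩, h5, h6⟩
    have hρ : pre X ρ.length = ρ := by
      refine List.ext_getElem (by simp) fun i h7 h8 => ?_
      rw [getElem_pre, h5 i h8]
      simp [h8]
    refine ⟨ρ.length, τ, ⟨h3, h4⟩, by rwa [hρ]⟩
  · rintro ⟨m, τ, ⟨h3, h4⟩, h5⟩
    refine ⟨pre X m, τ, ⟨by simpa using h3, by simpa using h4⟩, fun i hi => ?_, h5⟩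
    exact (pre_getD X _ _ _ (by simpa using hi)).symm

theorem si_LC {O : ℕ → Bool} (hU : RecursiveIn {chi O} U) (hO : TLe O X) :
    SI (jump X) fun σ : List Bool => LC U X σ := by
  have h1 := (si_viol hU hO).decide_jump.2
  refine SI.ex (p := fun (σ : List Bool) n => ¬ Viol U X n σ) ?_
  exact h1.comp (f := fun z : List Bool × ℕ => (z.2, z.1)) (Primrec.snd.pair Primrec.fst)

theorem LC_of_lt {s : ℝ} (hs : 0 < s) (hd : dimU U X = ENNReal.ofReal s) {σ : List Bool}
    (h : val σ < s) : LC U X σ := by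
  have h1 : ENNReal.ofReal (val σ) < dimU U X := by
    rw [hd]
    exact (ENNReal.ofReal_lt_ofReal_iff hs).2 h
  have h2 := Filter.eventually_lt_of_lt_liminf h1
  rw [Filter.eventually_atTop] at h2
  obtain ⟨N, hN⟩ := h2
  refine ⟨max N 1, ?_⟩
  rintro ⟨m, τ, ⟨h3, h4⟩, h5⟩
  have h6 := hN m ((le_max_left _ _).trans h3)
  have hm : 1 ≤ m := (le_max_right _ _).trans h3
  have h7 : KU U (pre X m) ≤ τ.length := Nat.sInf_le ⟨τ, rfl, h5⟩
  have h8 : ((KU U (pre X m) : ℕ) : ℝ≥0∞) / m ≤ ENNReal.ofReal (val σ) := by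
    have hm' : (0 : ℝ) < m := by exact_mod_cast hm
    rw [← ENNReal.ofReal_natCast, ← ENNReal.ofReal_natCast, ← ENNReal.ofReal_div_of_pos hm']
    refine ENNReal.ofReal_le_ofReal ?_
    rw [val, div_le_div_iff₀ hm' (by positivity)]
    have h9 : ((KU U (pre X m) : ℕ) : ℝ) * 4 ^ σ.length ≤ (τ.length : ℝ) * 4 ^ σ.length := by
      gcongr
    refine h9.trans ?_
    exact_mod_cast h4
  exact absurd h6 (not_lt.2 h8)

theorem le_of_LC {A : ℕ → Bool} (hU : IsUniversalIn A U) {s : ℝ} (hs : 0 < s)
    (hd : dimU U X = ENNReal.ofReal s) {σ : List Bool} (h : LC U X σ) : val σ ≤ s := by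
  obtain ⟨N, hN⟩ := h
  have h1 : ENNReal.ofReal (val σ) ≤ dimU U X := by
    refine Filter.le_liminf_of_le (by isBoundedDefault) ?_
    filter_upwards [Filter.eventually_ge_atTop (max N 1)] with m hm
    have hm1 : 1 ≤ m := (le_max_right _ _).trans hm
    have hm' : (0 : ℝ) < m := by exact_mod_cast hm1
    obtain ⟨τ, h3, h4⟩ := hU.exists_min (pre X m)
    have h5 : ¬ (τ.length * 4 ^ σ.length ≤ num σ * m) := fun h6 =>
      hN ⟨m, τ, ⟨(le_max_left _ _).trans hm, h6⟩, h4⟩
    change _ ≤ ((KU U (pre X m) : ℕ) : ℝ≥0∞) / m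
    rw [← ENNReal.ofReal_natCast, ← ENNReal.ofReal_natCast, ← ENNReal.ofReal_div_of_pos hm']
    refine ENNReal.ofReal_le_ofReal ?_
    rw [val, div_le_div_iff₀ (by positivity) hm', ← h3]
    push Not at h5
    exact_mod_cast h5.le
  rw [hd] at h1
  exact (ENNReal.ofReal_le_ofReal_iff hs.le).1 h1

end lower

section main

variable {U V : List Bool →. List Bool} {X O A : ℕ → Bool}

/-- correct computation of the path -/
def Run (V U : List Bool →. List Bool) (X : ℕ → Bool) (ρ : List Bool) : Prop :=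
  ∀ i < ρ.length, (ρ.getD i false = true ∧ LC U X (ρ.take i ++ [true])) ∨
    (ρ.getD i false = false ∧ ¬ Ext V (ρ.take i ++ [true]))

theorem run_pre (hd : dimU U X = ENNReal.ofReal (rv (YY V))) (n : ℕ) : Run V U X (pre (YY V) n) := by
  intro i hi
  rw [length_pre] at hi
  rw [pre_getD _ _ _ _ hi, take_pre _ _ _ hi.le]
  cases hb : YY V i
  · right
    refine ⟨rfl, ?_⟩
    rw [← YY_true, hb]
    simp
  · left
    refine ⟨rfl, LC_of_lt (rv_pos _) hd ?_⟩
    have h1 := rv_lower (YY V) (i + 1)
    rw [pre_succ, hb] at h1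
    have h2 : (0 : ℝ) < 1 / 3 / 4 ^ (i + 1) := by positivity
    linarith

theorem eq_of_run (hU : IsUniversalIn A U) (hd : dimU U X = ENNReal.ofReal (rv (YY V)))
    {ρ : List Bool} (h : Run V U X ρ) : ρ = pre (YY V) ρ.length := by
  have key : ∀ n ≤ ρ.length, ρ.take n = pre (YY V) n := by
    intro n
    induction n with
    | zero => simp [pre]
    | succ n ih =>
      intro hn
      have ih' := ih (by omega)
      rw [List.take_succ_eq_append_getElem (by omega), ih', pre_succ]
      congr 2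
      have h1 := h n (by omega)
      rw [ih'] at h1
      rw [List.getD_eq_getElem _ _ (by omega)] at h1
      rcases h1 with ⟨h1, h2⟩ | ⟨h1, h2⟩
      · rw [h1]
        by_contra hb
        have hb : YY V n = false := by
          cases hc : YY V n
          · rfl
          · exact absurd hc.symm hb
        have h3 := le_of_LC hU (rv_pos _) hd h2
        have h4 := rv_upper (YY V) (n + 1)
        rw [pre_succ, hb, val_append] at h4
        rw [val_append] at h3
        simp only [length_pre, Bool.toNat_true, Bool.toNat_false, Nat.cast_one, Nat.cast_zero] at h3 h4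
        have h5 : (0 : ℝ) < 1 / 4 ^ (n + 1) := by positivity
        have e1 : ((1 : ℝ) + 1) / 4 ^ (n + 1) = 2 * (1 / 4 ^ (n + 1)) := by ring
        have e2 : ((1 : ℝ) + 0) / 4 ^ (n + 1) = 1 / 4 ^ (n + 1) := by ring
        have e3 : (2 : ℝ) / 3 / 4 ^ (n + 1) = 2 / 3 * (1 / 4 ^ (n + 1)) := by ring
        rw [e1] at h3
        rw [e2, e3] at h4
        linarith
      · rw [h1]
        by_contra hb
        have hb : YY V n = true := by
          cases hc : YY V n
          · exact absurd hc.symm hb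
          · rfl
        exact h2 (YY_true.1 hb)
  have := key ρ.length le_rfl
  rwa [List.take_length] at this

theorem tLe_YY (hU : IsUniversalIn A U) (hA : TLe A X) (hV : RecursiveIn {chi O} V)
    (hO : TLe O (jump X)) (hd : dimU U X = ENNReal.ofReal (rv (YY V))) :
    TLe (YY V) (jump X) := by
  have h1 : SI (jump X) fun σ => ¬ Ext V σ := (si_not_ext hV).trans hO
  have h2 := si_LC (X := X) hU.1.1 hA
  have h3 : SI (jump X) fun ρ => Run V U X ρ := by
    refine SI.all_lt (α := List Bool) (f := fun ρ => ρ.length)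
      (p := fun ρ i => (ρ.getD i false = true ∧ LC U X (ρ.take i ++ [true])) ∨
        (ρ.getD i false = false ∧ ¬ Ext V (ρ.take i ++ [true]))) ?_ Primrec.list_length
    have e : Primrec fun z : List Bool × ℕ => z.1.take z.2 ++ [true] :=
      Primrec.list_append.comp (Primrec.list_take.comp Primrec.snd Primrec.fst) (Primrec.const _)
    have e' : Primrec fun z : List Bool × ℕ => z.1.getD z.2 false :=
      (Primrec.list_getD false).comp Primrec.fst Primrec.snd
    refine SI.or (SI.and (SI.of_prim ?_) (h2.comp e)) (SI.and (SI.of_prim ?_)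
      (h1.comp (f := fun z : List Bool × ℕ => z.1.take z.2 ++ [true]) e))
    · exact Primrec.eq.comp e' (Primrec.const true)
    · exact Primrec.eq.comp e' (Primrec.const false)
  rw [tLe_iff_SI]
  have h4 : SI (jump X) fun x : ℕ × Bool => ∃ ρ : List Bool,
      (ρ.length = x.1 + 1 ∧ ρ.getD x.1 false = x.2) ∧ Run V U X ρ := by
    refine SI.ex (SI.and (SI.of_prim (PrimrecPred.and ?_ ?_)) (h3.comp (f := fun z :
      (ℕ × Bool) × List Bool => z.2) Primrec.snd))
    · exact Primrec.eq.comp (Primrec.list_length.comp Primrec.snd)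
        (Primrec.succ.comp (Primrec.fst.comp Primrec.fst))
    · exact Primrec.eq.comp ((Primrec.list_getD false).comp Primrec.snd (Primrec.fst.comp Primrec.fst))
        (Primrec.snd.comp Primrec.fst)
  refine h4.of_eq fun x => ?_
  constructor
  · rintro ⟨ρ, ⟨h5, h6⟩, h7⟩
    have h8 := eq_of_run hU hd h7
    rw [← h6, h8, pre_getD _ _ _ _ (by omega)]
  · intro h5
    refine ⟨pre (YY V) (x.1 + 1), ⟨by simp, ?_⟩, run_pre hd _⟩
    rw [pre_getD _ _ _ _ (by omega), h5]

theorem one_le_dim (hV : IsUniversalIn A V) : 1 ≤ dimU V (YY V) := by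
  have h0 : Ext V [] := by
    obtain ⟨X, hX⟩ := exists_good hV.1.2
    exact ⟨X, by rw [mem_cyl_iff]; rfl, hX⟩
  refine Filter.le_liminf_of_le (by isBoundedDefault) ?_
  filter_upwards [Filter.eventually_ge_atTop 1] with n hn
  obtain ⟨τ, h1, h2⟩ := hV.exists_min (pre (YY V) n)
  have h3 := not_bad_pre (not_bad_YY h0 n) h2
  rw [h1] at h3
  change _ ≤ ((KU V (pre (YY V) n) : ℕ) : ℝ≥0∞) / n
  rw [ENNReal.le_div_iff_mul_le (Or.inl (by simp; omega)) (Or.inl (by simp)), one_mul]
  exact_mod_cast h3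

end main

end Neg

/-- The set with characteristic sequence constantly `false`. -/
def zero : ℕ → Bool := fun _ => false

theorem tLe_zero (X : ℕ → Bool) : TLe zero X := by
  rw [tLe_iff_SI]
  exact SI.of_prim (Primrec.eq.comp (Primrec.const false) Primrec.snd)

theorem neg_main (U : (ℕ → Bool) → List Bool →. List Bool) (hU : ∀ A, IsUniversalIn A (U A)) :
    ∃ s : ℝ, 0 < s ∧ s < 1 ∧ ∀ X : ℕ → Bool, dimU (U zero) X = ENNReal.ofReal s →
      ∃ Y : ℕ → Bool, TLe Y (jump X) ∧ ENNReal.ofReal s < dimU (U (jump zero)) Y := by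
  refine ⟨Neg.rv (Neg.YY (U (jump zero))), Neg.rv_pos _, Neg.rv_lt_one _, fun X hX =>
    ⟨Neg.YY (U (jump zero)), ?_, ?_⟩⟩
  · exact Neg.tLe_YY (hU zero) (tLe_zero X) (hU (jump zero)).1.1 (TLe.jump (tLe_zero X)) hX
  · refine lt_of_lt_of_le ?_ (Neg.one_le_dim (hU (jump zero)))
    rw [ENNReal.ofReal_lt_one]
    exact Neg.rv_lt_one _

end Pool.Agent.Helper227
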