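import Pool.Agent.Helper227.RD.Jump
import Pool.Agent.Helper227.Mach

set_option autoImplicit false

namespace Pool.Agent.Helper227

open Encodable MeasureTheory
open scoped ENNReal
open Nat.Partrec (Code)

/-- `M` is a prefix-free machine relative to the oracle `A`: a partial function from strings to
strings, recursive in `A`, whose domain is prefix-free. -/
def IsMachineIn (A : ℕ → Bool) (M : List Bool →. List Bool) : Prop :=
  RecursiveIn {chi A} M ∧ ∀ σ τ : List Bool, (M σ).Dom → (M τ).Dom → σ <+: τ → σ = τ

/-- `U` is a universal (optimal) prefix-free machine relative to the oracle `A`. -/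
def IsUniversalIn (A : ℕ → Bool) (U : List Bool →. List Bool) : Prop :=
  IsMachineIn A U ∧ ∀ M : List Bool →. List Bool, IsMachineIn A M → ∃ c : ℕ, ∀ τ y : List Bool,
    y ∈ M τ → ∃ τ' : List Bool, τ'.length ≤ τ.length + c ∧ y ∈ U τ'

/-- partial function with the given graph -/
noncomputable def partOf {α β : Type*} (G : α → β → Prop) : α →. β :=
  fun a => ⟨∃ b, G a b, fun h => h.choose⟩

theorem mem_partOf {α β : Type*} {G : α → β → Prop} {a : α}
    (h : ∀ b b', G a b → G a b' → b = b') {b : β} : b ∈ partOf G a ↔ G a b := by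
  constructor
  · rintro ⟨h1, h2⟩
    rw [← h2]
    exact h1.choose_spec
  · intro hb
    exact ⟨⟨b, hb⟩, h _ _ (Exists.choose_spec (⟨b, hb⟩ : ∃ b, G a b)) hb⟩

/-- pairs with code less than `s` -/
def cands2 (s : ℕ) : List (List Bool × List Bool) :=
  (List.range s).filterMap (decode₂ (List Bool × List Bool))

theorem mem_cands2 {s : ℕ} {ζ : List Bool × List Bool} : ζ ∈ cands2 s ↔ encode ζ < s := by
  simp only [cands2, List.mem_filterMap, List.mem_range]
  constructor
  · rintro ⟨a, ha, h⟩
    have : encode ζ = a := mem_decode₂.1 h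
    omega
  · intro h
    exact ⟨_, h, mem_decode₂.2 rfl⟩

theorem primrec_cands2 : Primrec cands2 :=
  Primrec.listFilterMap Primrec.list_range (Primrec.decode₂.comp Primrec.snd)

/-- the pair is enumerated by the code `c` with oracle string `σ` -/
def En (c : Code) (σ : List Bool) (p : List Bool × List Bool) : Prop :=
  ∃ k < σ.length + 1, (c.evaln σ.length (encode (σ.take k, p))).isSome = true

theorem En_mono {c : Code} {σ τ : List Bool} {p : List Bool × List Bool} (h : σ <+: τ)
    (hp : En c σ p) : En c τ p := by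
  obtain ⟨k, hk, h2⟩ := hp
  have hl := h.length_le
  refine ⟨k, by omega, ?_⟩
  have hk2 : σ.take k = τ.take k := by
    rw [List.prefix_iff_eq_take] at h
    rw [h, List.take_take, min_eq_left (by omega)]
  rw [← hk2]
  rw [Option.isSome_iff_exists] at h2 ⊢
  obtain ⟨y, hy⟩ := h2
  exact ⟨y, Nat.Partrec.Code.evaln_mono hl hy⟩

open Classical in
/-- the list of pairs enumerated -/
noncomputable def PL (c : Code) (σ : List Bool) : List (List Bool × List Bool) :=
  (cands2 σ.length).filter fun p => En c σ p

theorem mem_PL {c : Code} {σ : List Bool} {p : List Bool × List Bool} :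
    p ∈ PL c σ ↔ encode p < σ.length ∧ En c σ p := by
  simp only [PL, List.mem_filter, mem_cands2, decide_eq_true_eq]

theorem PL_mono {c : Code} {σ τ : List Bool} {p : List Bool × List Bool} (h : σ <+: τ)
    (hp : p ∈ PL c σ) : p ∈ PL c τ := by
  rw [mem_PL] at hp ⊢
  exact ⟨lt_of_lt_of_le hp.1 h.length_le, En_mono h hp.2⟩

/-- the list of pairs is a finite prefix-free machine -/
def PFL (L : List (List Bool × List Bool)) : Prop := ∀ p ∈ L, ∀ q ∈ L, q.1.take p.1.length = p.1 → p = q

theorem primrec_PFL : PrimrecPred PFL := by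
  refine PP.all_mem (α := List (List Bool × List Bool)) (f := fun L => L)
    (p := fun L p => ∀ q ∈ L, q.1.take p.1.length = p.1 → p = q) ?_ Primrec.id
  refine PP.all_mem (α := List (List Bool × List Bool) × (List Bool × List Bool)) (f := fun x => x.1)
    (p := fun x q => q.1.take x.2.1.length = x.2.1 → x.2 = q) ?_ Primrec.fst
  have h1 : PrimrecPred fun z : (List (List Bool × List Bool) × (List Bool × List Bool)) ×
      (List Bool × List Bool) => ¬ (z.2.1.take z.1.2.1.length = z.1.2.1) ∨ z.1.2 = z.2 := by
    refine PrimrecPred.or (PrimrecPred.not ?_) ?_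
    · exact Primrec.eq.comp (Primrec.list_take.comp (Primrec.list_length.comp
        (Primrec.fst.comp (Primrec.snd.comp Primrec.fst))) (Primrec.fst.comp Primrec.snd))
        (Primrec.fst.comp (Primrec.snd.comp Primrec.fst))
    · exact Primrec.eq.comp (Primrec.snd.comp Primrec.fst) Primrec.snd
  exact h1.of_eq fun z => by
    constructor
    · rintro (h | h) h2
      · exact absurd h2 h
      · exact h
    · intro h
      by_cases h2 : z.2.1.take z.1.2.1.length = z.1.2.1
      · exact Or.inr (h h2)
      · exact Or.inl h2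

theorem primrec_En : PrimrecPred fun x : Code × List Bool × (List Bool × List Bool) =>
    En x.1 x.2.1 x.2.2 := by
  refine PP.ex_lt (α := Code × List Bool × (List Bool × List Bool))
    (f := fun x => x.2.1.length + 1)
    (p := fun x k => (x.1.evaln x.2.1.length (encode (x.2.1.take k, x.2.2))).isSome = true) ?_
    (Primrec.succ.comp (Primrec.list_length.comp (Primrec.fst.comp Primrec.snd)))
  have e1 : Primrec fun z : (Code × List Bool × (List Bool × List Bool)) × ℕ => z.1.2.1 :=
    Primrec.fst.comp (Primrec.snd.comp Primrec.fst)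
  have e2 : Primrec fun z : (Code × List Bool × (List Bool × List Bool)) × ℕ =>
      Code.evaln z.1.2.1.length z.1.1 (encode (z.1.2.1.take z.2, z.1.2.2)) :=
    Nat.Partrec.Code.primrec_evaln.comp
      (((Primrec.list_length.comp e1).pair (Primrec.fst.comp Primrec.fst)).pair
      (Primrec.encode.comp ((Primrec.list_take.comp Primrec.snd e1).pair
        (Primrec.snd.comp (Primrec.snd.comp Primrec.fst)))))
  exact Primrec.eq.comp (Primrec.option_isSome.comp e2) (Primrec.const true)

theorem primrec_PL : Primrec fun x : Code × List Bool => PL x.1 x.2 := by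
  classical
  have h1 : PrimrecRel (fun (p : List Bool × List Bool) (x : Code × List Bool) => En x.1 x.2 p) :=
    PrimrecPred.comp (f := fun z : (List Bool × List Bool) × (Code × List Bool) =>
      (z.2.1, z.2.2, z.1)) primrec_En ((Primrec.fst.comp Primrec.snd).pair
        ((Primrec.snd.comp Primrec.snd).pair Primrec.fst))
  refine (h1.listFilter.comp (primrec_cands2.comp (Primrec.list_length.comp
    Primrec.snd)) Primrec.id).of_eq fun x => ?_
  unfold PL
  congr

/-- prefix of a universal program -/
def hd (n : ℕ) : List Bool := (List.range n).map (fun _ => true) ++ [false]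

theorem hd_length (n : ℕ) : (hd n).length = n + 1 := by simp [hd]

theorem primrec_hd : Primrec hd :=
  Primrec.list_append.comp (Primrec.list_map Primrec.list_range (Primrec.const true)) (Primrec.const [false])

theorem hd_prefix {n m : ℕ} {σ τ : List Bool} (h : hd n ++ σ <+: hd m ++ τ) : n = m ∧ σ <+: τ := by
  have key : ∀ (a b : ℕ) (σ τ : List Bool), hd a ++ σ <+: hd b ++ τ → ¬ a < b := by
    intro a b σ τ h hab
    obtain ⟨ρ, hρ⟩ := h
    have h1 := congrArg (fun l => l[a]?) hρ
    simp only [hd, List.append_assoc] at h1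
    rw [List.getElem?_append_right (by simp)] at h1
    simp at h1
    rw [List.getElem?_append_left (by simpa using hab), List.getElem?_replicate, if_pos hab] at h1
    simp at h1
  have key2 : ∀ (a b : ℕ) (σ τ : List Bool), hd a ++ σ <+: hd b ++ τ → ¬ b < a := by
    intro a b σ τ h hab
    obtain ⟨ρ, hρ⟩ := h
    have h1 := congrArg (fun l => l[b]?) hρ
    simp only [hd, List.append_assoc] at h1
    rw [List.getElem?_append_left (by simpa using hab), List.getElem?_append_right (by simp)] at h1
    simp at h1
    rw [List.getElem?_replicate, if_pos hab] at h1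
    simp at h1
  have hnm : n = m := by
    have h1 := key _ _ _ _ h
    have h2 := key2 _ _ _ _ h
    omega
  subst hnm
  exact ⟨rfl, (List.prefix_append_right_inj _).1 h⟩

/-- graph of the universal machine -/
def GU (A : ℕ → Bool) (ρ y : List Bool) : Prop :=
  ∃ s : ℕ, ∃ c : Code, ∃ τ : List Bool, ρ = hd (encode c) ++ τ ∧ (τ, y) ∈ PL c (pre A s) ∧
    PFL (PL c (pre A s))

theorem GU_pf {A : ℕ → Bool} {ρ ρ' y y' : List Bool} (h : GU A ρ y) (h' : GU A ρ' y')
    (hp : ρ <+: ρ') : ρ = ρ' ∧ y = y' := by
  obtain ⟨s, c, τ, rfl, h1, h2⟩ := h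
  obtain ⟨s', c', τ', rfl, h1', h2'⟩ := h'
  obtain ⟨he, hp'⟩ := hd_prefix hp
  have hc : c = c' := Encodable.encode_injective he
  subst hc
  have h3 : (τ, y) = (τ', y') := by
    have ht : τ'.take τ.length = τ := (List.prefix_iff_eq_take.1 hp').symm
    rcases Nat.le_total s s' with h | h
    · exact h2' _ (PL_mono (pre_prefix A h) h1) _ h1' ht
    · exact h2 _ h1 _ (PL_mono (pre_prefix A h) h1') ht
  rw [Prod.mk.injEq] at h3
  rw [h3.1, h3.2]
  exact ⟨rfl, rfl⟩

/-- a universal machine relative to `A` -/
noncomputable def univ (A : ℕ → Bool) : List Bool →. List Bool := partOf (GU A)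

theorem mem_univ {A : ℕ → Bool} {ρ y : List Bool} : y ∈ univ A ρ ↔ GU A ρ y :=
  mem_partOf fun _ _ h h' => (GU_pf h h' (List.prefix_refl _)).2

theorem isUniversalIn_univ (A : ℕ → Bool) : IsUniversalIn A (univ A) := by
  refine ⟨⟨?_, ?_⟩, ?_⟩
  · refine recIn_of_graph' (G := fun x : List Bool × List Bool × List Bool =>
      ∃ c : Code, ∃ τ : List Bool, x.2.1 = hd (encode c) ++ τ ∧ (τ, x.2.2) ∈ PL c x.1 ∧
        PFL (PL c x.1)) ?_ fun ρ y => mem_univ
    refine S1.ex (S1.ex (S1.of_prim (PrimrecPred.and ?_ (PrimrecPred.and ?_ ?_))))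
    · refine Primrec.eq.comp (Primrec.fst.comp (Primrec.snd.comp (Primrec.fst.comp Primrec.fst))) ?_
      exact Primrec.list_append.comp (primrec_hd.comp (Primrec.encode.comp
        (Primrec.snd.comp Primrec.fst))) Primrec.snd
    · have hL : Primrec fun z : ((List Bool × List Bool × List Bool) × Code) × List Bool =>
          PL z.1.2 z.1.1.1 :=
        primrec_PL.comp ((Primrec.snd.comp Primrec.fst).pair
          (Primrec.fst.comp (Primrec.fst.comp Primrec.fst)))
      refine (PP.ex_mem (p := fun (z : ((List Bool × List Bool × List Bool) × Code) × List Bool) q =>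
        q = (z.2, z.1.1.2.2)) ?_ hL).of_eq fun z => by simp
      exact Primrec.eq.comp Primrec.snd ((Primrec.snd.comp Primrec.fst).pair
        (Primrec.snd.comp (Primrec.snd.comp (Primrec.fst.comp (Primrec.fst.comp Primrec.fst)))))
    · exact primrec_PFL.comp (primrec_PL.comp ((Primrec.snd.comp Primrec.fst).pair
          (Primrec.fst.comp (Primrec.fst.comp Primrec.fst))))
  · intro σ τ hσ hτ hp
    obtain ⟨y, hy⟩ := Part.dom_iff_mem.1 hσ
    obtain ⟨y', hy'⟩ := Part.dom_iff_mem.1 hτ
    exact (GU_pf (mem_univ.1 hy) (mem_univ.1 hy') hp).1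
  · intro M hM
    obtain ⟨G, hG, mG, eG⟩ := recIn_graph' hM.1
    obtain ⟨c, hc⟩ := Nat.Partrec.Code.exists_code.1 hG.re
    have h1 : ∀ x, (c.eval (encode x)).Dom ↔ G x := by
      intro x
      rw [hc]
      simp [Part.assert]
    refine ⟨encode c + 1, fun τ y hy => ⟨hd (encode c) ++ τ, ?_, ?_⟩⟩
    · rw [List.length_append, hd_length]; omega
    · rw [mem_univ]
      obtain ⟨s, hs⟩ := (eG _ _).1 hy
      obtain ⟨v, hv⟩ := Part.dom_iff_mem.1 ((h1 _).2 hs)
      obtain ⟨k, hk⟩ := Nat.Partrec.Code.evaln_complete.1 hv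
      have hsound : ∀ t : ℕ, ∀ p ∈ PL c (pre A t), p.2 ∈ M p.1 := by
        intro t p hp
        obtain ⟨_, j, hj, h2⟩ := mem_PL.1 hp
        obtain ⟨v, hv⟩ := Option.isSome_iff_exists.1 h2
        have h3 := Part.dom_iff_mem.2 ⟨v, Nat.Partrec.Code.evaln_sound hv⟩
        rw [h1] at h3
        rw [length_pre] at hj
        rw [take_pre A _ _ (by omega)] at h3
        exact (eG _ _).2 ⟨j, h3⟩
      refine ⟨max s (max k (encode (τ, y) + 1)), c, τ, rfl, ?_, ?_⟩
      · rw [mem_PL, length_pre]
        refine ⟨by omega, s, by rw [length_pre]; omega, ?_⟩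
        rw [length_pre, take_pre A _ _ (le_max_left _ _)]
        exact Option.isSome_iff_exists.2 ⟨v, Nat.Partrec.Code.evaln_mono
          ((le_max_left _ _).trans (le_max_right _ _)) hk⟩
      · intro p hp q hq hpq
        have hp2 := hsound _ p hp
        have hq2 := hsound _ q hq
        have he : p.1 = q.1 := hM.2 _ _ (Part.dom_iff_mem.2 ⟨_, hp2⟩) (Part.dom_iff_mem.2 ⟨_, hq2⟩)
          (List.prefix_iff_eq_take.2 hpq.symm)
        refine Prod.ext he ?_
        rw [he] at hp2
        exact Part.mem_unique hp2 hq2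

theorem exists_universalIn (A : ℕ → Bool) : ∃ U, IsUniversalIn A U := ⟨_, isUniversalIn_univ A⟩

end Pool.Agent.Helper227
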